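import Mathlib
import Pool.Agent.H592R6.CspU
import Pool.Agent.H592R7.Param5

/-!
The first moment with a strong bound.
-/

namespace H592R3.MbU

open Finset DomAC0 H568R2 SmallDepth H592R3.Mb2 H592R3.Mb3

lemma first_arith (Q d m' k S Jc e : ℕ) (hQ : 6 ≤ Q) (hd : 1 ≤ d) (hm' : 2 ≤ m')
    (T τ : ℝ) (hT : T = τ ^ d) (he : e = d * (E1 Q * m' + k))
    (hA : 2 * (12 * (2 * e : ℕ) : ℝ) ^ 16 ≤ τ)
    (hB2 : (2 : ℝ) ^ (4 * Q + 8) ≤ T)
    (hS : (S : ℝ) ≤ T ^ ((2 * Q - 12) * m'))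
    (hJ : (Jc : ℝ) = (Q * m' * (T ^ 2) ^ (2 * Q ^ 2 + 14 + 1) + 1) * 2) :
    ((S * ((Jc + S + 1 : ℕ) : ℝ) + 1) * 2 ^ (Q * m') * (2 * T ^ 4) ^ (2 * m')) *
      (d * ((S * (Jc + S + 1) : ℕ) : ℝ) *
      (12 * (2 * e : ℕ) * (1 / τ)) ^ (2 * e + 1)) ≤ 1 / T := by
  obtain ⟨W, hW⟩ : ∃ W : ℝ, W = 12 * ((2 * e : ℕ) : ℝ) := ⟨_, rfl⟩
  rw [← hW] at hA ⊢
  have hE2 : 1 ≤ E1 Q := by unfold E1; omega
  have hdm : d * m' ≤ e := by
    rw [he]
    apply Nat.mul_le_mul_left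
    exact (Nat.le_mul_of_pos_left m' (by omega)).trans (Nat.le_add_right _ _)
  have heQ : Q * m' ≤ e := by
    rw [he]
    calc Q * m' ≤ E1 Q * m' := Nat.mul_le_mul_right _ (by unfold E1 E0; omega)
      _ ≤ E1 Q * m' + k := Nat.le_add_right _ _
      _ = 1 * (E1 Q * m' + k) := (one_mul _).symm
      _ ≤ d * (E1 Q * m' + k) := Nat.mul_le_mul_right _ hd
  have hde0 : d ≤ e := (Nat.le_mul_of_pos_right d (by omega)).trans hdm
  have he1 : 1 ≤ e := by omega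
  have heR : (1 : ℝ) ≤ e := by exact_mod_cast he1
  have hW24 : W = 24 * e := by rw [hW]; push_cast; ring
  have hW1 : 24 ≤ W := by rw [hW24]; linarith only [heR]
  have hdR : (1 : ℝ) ≤ d := by exact_mod_cast hd
  have heQR : (Q : ℝ) * m' ≤ e := by exact_mod_cast heQ
  have hW16 : W ≤ W ^ 16 := by
    calc W = W ^ 1 := (pow_one _).symm
      _ ≤ W ^ 16 := pow_le_pow_right₀ (by linarith only [hW1]) (by norm_num)
  have hτ1 : 1 ≤ τ := by linarith only [hA, hW16, hW1]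
  have hτ0 : 0 < τ := by linarith only [hτ1]
  have hWτ : W ≤ τ := by linarith only [hA, hW16, hW1]
  have hτT : τ ≤ T := by
    rw [hT]
    calc τ = τ ^ 1 := (pow_one _).symm
      _ ≤ τ ^ d := pow_le_pow_right₀ hτ1 hd
  have hT1 : 1 ≤ T := by linarith only [hτT, hτ1]
  have hT0 : 0 < T := by linarith only [hT1]
  have hW2 : W ^ 2 ≤ W ^ 16 := pow_le_pow_right₀ (by linarith only [hW1]) (by norm_num)
  have hT576 : 576 ≤ T := by
    have : (24 : ℝ) ^ 2 ≤ W ^ 2 := pow_le_pow_left₀ (by norm_num) hW1 2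
    linarith only [this, hW2, hA, hτT]
  have h8Q : 8 * ((Q : ℝ) * m') ≤ T := by linarith only [heQR, hW24, hWτ, hτT, heR]
  have h2Q : ((2 : ℝ) ^ (Q * m')) * 2 ^ (2 * m') ≤ T ^ m' := by
    rw [← pow_add, show Q * m' + 2 * m' = (Q + 2) * m' by ring, pow_mul]
    apply pow_le_pow_left₀ (by positivity)
    refine le_trans ?_ hB2
    exact pow_le_pow_right₀ (by norm_num) (by omega)
  obtain ⟨hSN, hR2b⟩ := size_bounds Q m' S Jc _ T hT576 hm' h8Q hS hJ h2Q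
  have hE0e : 4 * Q + 2 * (2 * Q ^ 2 + 14 + 1) + 13 = E0 Q := rfl
  rw [hE0e] at hSN hR2b
  obtain ⟨N2, hN2⟩ : ∃ N2, N2 = S * (Jc + S + 1) := ⟨_, rfl⟩
  rw [← hN2] at hSN ⊢
  obtain ⟨R2, hR2⟩ : ∃ R2 : ℝ, R2 = (S * ((Jc + S + 1 : ℕ) : ℝ) + 1) * 2 ^ (Q * m') *
    (2 * T ^ 4) ^ (2 * m') := ⟨_, rfl⟩
  rw [← hR2] at hR2b ⊢
  have hR20 : 0 ≤ R2 := by rw [hR2]; positivity
  obtain ⟨ε, hε⟩ : ∃ ε : ℝ, ε = d * (N2 : ℝ) * (W * (1 / τ)) ^ (2 * e + 1) := ⟨_, rfl⟩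
  rw [← hε]
  have hW0 : 0 ≤ W := by linarith only [hW1]
  have hε0 : 0 ≤ ε := by rw [hε]; positivity
  -- second term
  have hεb : ε * T ^ (E1 Q * m' + k) ≤ T ^ (1 + E0 Q * m') := by
    have h1 : (d : ℝ) ≤ T := by
      have : (d : ℝ) ≤ e := by exact_mod_cast hde0
      linarith only [this, hW24, hWτ, hτT, heR]
    have h3 : (W * (1 / τ)) ^ (2 * e + 1) * T ^ (E1 Q * m' + k) ≤ 1 := by
      have f2 : T ^ (E1 Q * m' + k) = τ ^ e := by
        rw [hT, ← pow_mul, he]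
      have g1 : (W * (1 / τ)) ^ (2 * e + 1) = W ^ (2 * e + 1) / τ ^ (2 * e + 1) := by
        rw [mul_one_div, div_pow]
      rw [f2, g1, div_mul_eq_mul_div, div_le_one (by positivity)]
      have g2 : W ^ (2 * e + 1) ≤ τ ^ (e + 1) := by
        calc W ^ (2 * e + 1) ≤ W ^ (2 * (e + 1)) :=
              pow_le_pow_right₀ (by linarith only [hW1]) (by omega)
          _ = (W ^ 2) ^ (e + 1) := by rw [pow_mul]
          _ ≤ τ ^ (e + 1) := pow_le_pow_left₀ (by positivity) (by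
              have : 0 ≤ W ^ 16 := by positivity
              linarith only [hW2, hA, this]) _
      calc W ^ (2 * e + 1) * τ ^ e ≤ τ ^ (e + 1) * τ ^ e := by gcongr
        _ = τ ^ (2 * e + 1) := by rw [← pow_add]; congr 1; ring
    calc ε * T ^ (E1 Q * m' + k) = d * (N2 : ℝ) *
          ((W * (1 / τ)) ^ (2 * e + 1) * T ^ (E1 Q * m' + k)) := by rw [hε]; ring
      _ ≤ T * T ^ (E0 Q * m') * 1 := by gcongr
      _ = T ^ (1 + E0 Q * m') := by rw [mul_one, pow_add, pow_one]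
  rw [le_div_iff₀ hT0]
  have hTp : 0 < T ^ (E1 Q * m' + k) := by positivity
  have h3 : R2 * ε * T * T ^ (E1 Q * m' + k) ≤ 1 * T ^ (E1 Q * m' + k) := by
    calc R2 * ε * T * T ^ (E1 Q * m' + k)
        = R2 * (ε * T ^ (E1 Q * m' + k)) * T := by ring
      _ ≤ T ^ (E0 Q * m') * T ^ (1 + E0 Q * m') * T := by gcongr
      _ = T ^ (E0 Q * m' + (1 + E0 Q * m') + 1) := by
          rw [← pow_add, ← pow_succ]
      _ ≤ T ^ (E1 Q * m' + k) := by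
          apply pow_le_pow_right₀ hT1
          have g0 : E1 Q * m' = E0 Q * m' + E0 Q * m' + 2 * m' := by
            unfold E1; ring
          rw [g0]
          omega
      _ = 1 * T ^ (E1 Q * m' + k) := (one_mul _).symm
  exact le_of_mul_le_mul_right h3 hTp

theorem csp_first (Q d m' b k e : ℕ) (hQ : 6 ≤ Q) (hd : 1 ≤ d) (hm' : 2 ≤ m')
    (he : e = d * (E1 Q * m' + k))
    (hA : 2 * (12 * (2 * e)) ^ 16 ≤ 2 ^ b)
    (hB1 : 2 ^ (2 * Q + 16) * b ^ 4 ≤ 2 ^ b)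
    (hB2 : 4 * Q + 8 ≤ d * b)
    (s : Fin (Q * m') → Fin (2 * Q ^ 2 + 14 + 1) → Fin (Q * m')) (hs : ∀ i, s i 0 = i)
    (hexp : ∀ H : Finset (Fin (Q * m')), m' ≤ H.card → Q * m' - (touched s H).card ≤ m')
    (hsm : ∀ H : Finset (Fin (Q * m')), 1 ≤ H.card → H.card < m' →
        3 * H.card ≤ (touched s H).card)
    {J : Type} (C : Circuit J) {S : ℕ} (hC1 : C.depth ≤ d) (hC2 : C.size ≤ S)
    (σ : ((Fin (Q * m') × (Fin (2 * Q ^ 2 + 14 + 1) → Fin (2 ^ (2 * d * b)))) → Bool) →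
      (J → Bool))
    (hσ : ∀ j, Junta 1 (fun x => σ x j))
    (hcon : S ≤ 2 ^ ((2 * Q - 12) * (d * b * m'))) :
    Ex (vp ((1 / ((2 : ℝ) ^ (d * b)) ^ 3) / 2)) (fun X : (Fin (Q * m') × (Fin (2 * Q ^ 2 + 14 + 1) →
      Fin (2 ^ (2 * d * b)))) → Bool => Mb2.cntS s σ C X) ≤
      3 * (((2 : ℝ) ^ (2 * d * b)) ^ (Q * m') / 2 ^ (d * b)) := by
  obtain ⟨G, hGdef⟩ : ∃ G : Game J, G = .verify C := ⟨_, rfl⟩
  have hG : G.Bounded d S 0 := by
    rw [hGdef]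
    exact ⟨hC1, hC2⟩
  obtain ⟨φ, hφ⟩ : ∃ φ : J → Option (Fin (Q * m') ×
      (Fin (2 * Q ^ 2 + 14 + 1) → Fin (2 ^ (2 * d * b)))) × Bool,
      ∀ j X, σ X j = std X (φ j) := by
    choose φ hφ using fun j => junta_std (hσ j)
    exact ⟨φ, hφ⟩
  have hev : ∀ X, Mb2.ms s (fun X => std X) (gmap φ G) X = Mb2.ms s σ G X := fun X =>
    Mb2.ms_gmap s σ φ hφ X G
  have hn1 : 1 ≤ 2 ^ (2 * d * b) := Nat.one_le_two_pow
  have hE : 1 ≤ E1 Q := by unfold E1; omega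
  have hm'e : m' ≤ e := by
    rw [he]
    calc m' = 1 * (1 * m') := by ring
      _ ≤ d * (E1 Q * m' + k) := Nat.mul_le_mul hd
          ((Nat.mul_le_mul_right m' hE).trans (Nat.le_add_right _ _))
  have hQe : Q * m' ≤ e := by
    rw [he]
    calc Q * m' ≤ E1 Q * m' := Nat.mul_le_mul_right _ (by unfold E1 E0; omega)
      _ ≤ E1 Q * m' + k := Nat.le_add_right _ _
      _ = 1 * (E1 Q * m' + k) := (one_mul _).symm
      _ ≤ d * (E1 Q * m' + k) := Nat.mul_le_mul_right _ hd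
  have he1 : 1 ≤ e := by omega
  have hτ3 : 3 ≤ 2 ^ b := by
    refine le_trans ?_ hA
    have h2 : 12 * (2 * e) ≤ (12 * (2 * e)) ^ 16 := Nat.le_self_pow (by norm_num) _
    omega
  obtain ⟨T, hT⟩ : ∃ T : ℝ, T = (2 : ℝ) ^ (d * b) := ⟨_, rfl⟩
  have hT0 : 0 < T := by rw [hT]; positivity
  have hT1 : 1 ≤ T := by rw [hT]; exact one_le_pow₀ (by norm_num)
  have hTτ : T = ((2 ^ b : ℕ) : ℝ) ^ d := by rw [hT]; push_cast; rw [← pow_mul, mul_comm]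
  have hnT : ((2 ^ (2 * d * b) : ℕ) : ℝ) = T ^ 2 := by
    rw [hT, ← pow_mul]; push_cast; congr 1; ring
  have hq : (1 / ((2 ^ b : ℕ) : ℝ)) ^ d = 1 / T := by rw [one_div_pow, hTτ]
  have hτT : ((2 ^ b : ℕ) : ℝ) ≤ T := by
    have h2 : 2 ^ b ≤ 2 ^ (d * b) :=
      Nat.pow_le_pow_right (by norm_num) (Nat.le_mul_of_pos_left b (by omega))
    rw [hT]
    exact_mod_cast h2
  have hAT : 2 * (12 * ((2 * e : ℕ) : ℝ)) ^ 16 ≤ T := by
    refine le_trans ?_ hτT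
    exact_mod_cast hA
  have heR : (1 : ℝ) ≤ e := by exact_mod_cast he1
  have h24 : 12 * ((2 * e : ℕ) : ℝ) = 24 * e := by push_cast; ring
  have h12 : 24 * (e : ℝ) ≤ (24 * (e : ℝ)) ^ 16 := by
    calc 24 * (e : ℝ) = (24 * (e : ℝ)) ^ 1 := (pow_one _).symm
      _ ≤ (24 * (e : ℝ)) ^ 16 := pow_le_pow_right₀ (by linarith only [heR]) (by norm_num)
  have hAT' : 2 * (24 * (e : ℝ)) ^ 16 ≤ T := by rw [← h24]; exact hAT
  have hQeR : ((Q * m' : ℕ) : ℝ) ≤ e := by exact_mod_cast hQe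
  have hm'eR : (m' : ℝ) ≤ e := by exact_mod_cast hm'e
  have h8 : 8 * (((Q * m' : ℕ) : ℝ)) ≤ T := by linarith only [hQeR, hAT', h12, heR]
  have hT2 : 2 ≤ T := by linarith only [hAT', h12, heR]
  have hB2T : (2 : ℝ) ^ (4 * Q + 8) ≤ T := by
    rw [hT]
    exact pow_le_pow_right₀ (by norm_num) hB2
  have hQm : 1 ≤ Q * m' := Nat.one_le_iff_ne_zero.2 (by positivity)
  have hbig : 8 * ((2 * e : ℕ) : ℝ) * m' * ((Q * m' : ℕ) : ℝ) ≤ T := by
    calc 8 * ((2 * e : ℕ) : ℝ) * m' * ((Q * m' : ℕ) : ℝ) =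
          16 * ((e : ℝ) * m' * ((Q * m' : ℕ) : ℝ)) := by push_cast; ring
      _ ≤ 16 * ((e : ℝ) * e * e) := by gcongr
      _ = 16 * (e : ℝ) ^ 3 := by ring
      _ ≤ 24 ^ 16 * (e : ℝ) ^ 16 := by
          apply mul_le_mul (by norm_num) (pow_le_pow_right₀ heR (by norm_num))
            (by positivity) (by norm_num)
      _ = (24 * (e : ℝ)) ^ 16 := (mul_pow _ _ _).symm
      _ ≤ T := by
          have : (0 : ℝ) ≤ (24 * (e : ℝ)) ^ 16 := by positivity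
          linarith only [this, hAT']
  have hBs := Mb2.small_sum (h := 2 * e) (L := m') s hT1 hnT hsm hbig
  have hSR : (S : ℝ) ≤ T ^ ((2 * Q - 12) * m') := by
    rw [hT, ← pow_mul]
    have : (S : ℝ) ≤ ((2 ^ ((2 * Q - 12) * (d * b * m')) : ℕ) : ℝ) := by exact_mod_cast hcon
    refine this.trans (le_of_eq ?_)
    push_cast
    congr 1
    ring
  have hJc : (Fintype.card (Option (Fin (Q * m') ×
      (Fin (2 * Q ^ 2 + 14 + 1) → Fin (2 ^ (2 * d * b)))) × Bool) : ℝ) =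
      (Q * m' * (T ^ 2) ^ (2 * Q ^ 2 + 14 + 1) + 1) * 2 := by
    rw [Fintype.card_prod, Fintype.card_option, Fintype.card_prod, Fintype.card_fun,
      Fintype.card_fin, Fintype.card_fin, Fintype.card_fin, Fintype.card_bool]
    rw [← hnT]
    push_cast
    ring
  have h8' : 8 * ((Q : ℝ) * m') ≤ T := by push_cast at h8; exact h8
  have hT576 : 576 ≤ T := by
    have h3 : (24 : ℝ) ^ 2 ≤ (24 * (e : ℝ)) ^ 16 := by
      calc (24 : ℝ) ^ 2 ≤ (24 * (e : ℝ)) ^ 2 :=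
            pow_le_pow_left₀ (by norm_num) (by linarith only [heR]) 2
        _ ≤ (24 * (e : ℝ)) ^ 16 := pow_le_pow_right₀ (by linarith only [heR]) (by norm_num)
    linarith only [h3, hAT']
  obtain ⟨l, hldef⟩ : ∃ l, l = d * b * (E0 Q * m') := ⟨_, rfl⟩
  have hb0 : 1 ≤ b := by
    rcases Nat.eq_zero_or_pos b with h0 | h0
    · rw [h0] at hτ3; norm_num at hτ3
    · exact h0
  have hE0pos : 1 ≤ E0 Q := by unfold E0; omega
  have hl1 : 1 ≤ l := by rw [hldef]; exact Nat.one_le_iff_ne_zero.2 (by positivity)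
  have hlen : Fintype.card (Option (Fin (Q * m') ×
      (Fin (2 * Q ^ 2 + 14 + 1) → Fin (2 ^ (2 * d * b)))) × Bool) + S + 2 ≤ 2 ^ l := by
    have h1 := Mb3.len_bound Q m' S _ (2 * Q ^ 2 + 14 + 1) T hT576 hm' h8' hSR hJc
    have h2 : T ^ ((4 * Q + 2 * (2 * Q ^ 2 + 14 + 1) + 13) * m') = (2 : ℝ) ^ l := by
      rw [hT, ← pow_mul, hldef]
      rfl
    rw [h2] at h1
    exact_mod_cast h1
  have hle : l ≤ e * b := by
    rw [hldef, he]
    calc d * b * (E0 Q * m') = d * (E0 Q * m') * b := by ring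
      _ ≤ d * (E1 Q * m' + k) * b := by
          apply Nat.mul_le_mul_right
          apply Nat.mul_le_mul_left
          refine le_trans ?_ (Nat.le_add_right _ _)
          exact Nat.mul_le_mul_right _ (by unfold E1; omega)
  have hB1T : (2 : ℝ) ^ (2 * Q + 16) * (b : ℝ) ^ 4 ≤ T := by
    refine le_trans ?_ hτT
    exact_mod_cast hB1
  have hfirst := Mb3.first_term Q m' e b l S hm' hQ T he1 hm'e hle hAT hB1T hSR
  obtain ⟨X, hX⟩ : ∃ X : ℝ, X = (T ^ 2) ^ (Q * m') := ⟨_, rfl⟩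
  have hX0 : 0 < X := by rw [hX]; positivity
  have hctb : S * 2 ^ (Q * m') * ((2 * T ^ 4) ^ (2 * m') *
      (ctc (2 * e * l) m' (2 ^ (2 * d * b)) m' : ℝ)) ≤ X / T := by
    rw [hX]
    refine le_trans (le_of_eq ?_) hfirst
    unfold ctc
    push_cast
    have hnT' : (2 : ℝ) ^ (2 * d * b) = T ^ 2 := by
      rw [← hnT]; push_cast; rfl
    rw [hnT']
  have hctb0 : 0 ≤ S * 2 ^ (Q * m') * ((2 * T ^ 4) ^ (2 * m') *
      (ctc (2 * e * l) m' (2 ^ (2 * d * b)) m' : ℝ)) := by positivity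
  have hXT : X / T + X / T ≤ X := by
    rw [← add_div, div_le_iff₀ hT0]
    have := mul_le_mul_of_nonneg_left hT2 hX0.le
    linarith only [this]
  have hcore := game_mom (m := Q * m') (n := 2 ^ (2 * d * b)) (r := 2 * Q ^ 2 + 14) hn1 hQm s hs
    (gmap φ G) (fun X => std X) std_junta (h := 2 * e) (by omega) (d := d) (τ := 2 ^ b) hτ3
    (gmap_bounded φ G 0 hG) (L := m') (u := m') (l := l) hm' hl1 hlen hexp (y := 1 / T ^ 3) (q := 1 / T)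
    (c := 2 * T ^ 4) (by positivity) (by
      rw [div_le_one (by positivity)]; exact one_le_pow₀ hT1) hq.symm (by
      apply le_of_eq; field_simp) (by
      have : 1 ≤ T ^ 4 := one_le_pow₀ hT1
      linarith only [this]) (le_refl _) hBs (by
      rw [← hX, hnT, ← hX]
      linarith only [hctb, hXT]) 1
  have hmsX : (fun X => Mb2.ms s (fun X => std X) (gmap φ G) X ^ 1) =
      fun X => Mb2.cntS s σ C X := by
    funext X; rw [pow_one, hev, hGdef]; rfl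
  rw [hmsX] at hcore
  have hnT2 : ((2 : ℝ) ^ (2 * d * b)) = T ^ 2 := by rw [← hnT]; push_cast; rfl
  rw [← hT] at *
  rw [hnT2, ← hX]
  refine hcore.trans ?_
  rw [hnT, ← hX, pow_one, pow_one, pow_zero, one_mul]
  have hτ0 : (0 : ℝ) ≤ ((2 ^ b : ℕ) : ℝ) := by positivity
  have h2 := first_arith Q d m' k S _ e hQ hd hm' T ((2 ^ b : ℕ) : ℝ) hTτ he
    (by exact_mod_cast hA) hB2T hSR hJc
  obtain ⟨P, hP⟩ : ∃ P : ℝ, P = S * 2 ^ (Q * m') * ((2 * T ^ 4) ^ (2 * m') *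
      (ctc (2 * e * l) m' (2 ^ (2 * d * b)) m' : ℝ)) := ⟨_, rfl⟩
  rw [← hP] at hctb ⊢
  obtain ⟨Jc, hJcd⟩ : ∃ Jc : ℕ, Jc = Fintype.card (Option (Fin (Q * m') ×
      (Fin (2 * Q ^ 2 + 14 + 1) → Fin (2 ^ (2 * d * b)))) × Bool) := ⟨_, rfl⟩
  rw [← hJcd] at h2 ⊢
  obtain ⟨ε, hε⟩ : ∃ ε : ℝ, ε = d * ((S * (Jc + S + 1) : ℕ) : ℝ) *
      (12 * (2 * e : ℕ) * (1 / ((2 ^ b : ℕ) : ℝ))) ^ (2 * e + 1) := ⟨_, rfl⟩
  have hε0 : 0 ≤ ε := by rw [hε]; positivity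
  rw [← hε] at h2 ⊢
  have h3 : (((S : ℝ) + 1) * 2 ^ (Q * m') * (2 * T ^ 4) ^ (2 * m')) ≤
      ((S * ((Jc + S + 1 : ℕ) : ℝ) + 1) * 2 ^ (Q * m') * (2 * T ^ 4) ^ (2 * m')) := by
    have h4 : (S : ℝ) + 1 ≤ S * ((Jc + S + 1 : ℕ) : ℝ) + 1 := by
      have h5 : (S : ℝ) * 1 ≤ S * ((Jc + S + 1 : ℕ) : ℝ) := by
        apply mul_le_mul_of_nonneg_left _ (by positivity)
        exact_mod_cast (by omega : 1 ≤ Jc + S + 1)
      linarith only [h5]
    gcongr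
  have h5 : X * (((S : ℝ) + 1) * 2 ^ (Q * m') * (2 * T ^ 4) ^ (2 * m')) * ε ≤ X / T := by
    calc X * (((S : ℝ) + 1) * 2 ^ (Q * m') * (2 * T ^ 4) ^ (2 * m')) * ε
        ≤ X * ((S * ((Jc + S + 1 : ℕ) : ℝ) + 1) * 2 ^ (Q * m') * (2 * T ^ 4) ^ (2 * m')) * ε := by
          gcongr
      _ = X * (((S * ((Jc + S + 1 : ℕ) : ℝ) + 1) * 2 ^ (Q * m') * (2 * T ^ 4) ^ (2 * m')) * ε) := by
          ring
      _ ≤ X * (1 / T) := mul_le_mul_of_nonneg_left h2 hX0.le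
      _ = X / T := by rw [mul_one_div]
  rw [Nat.cast_one, one_mul]
  linarith only [h5, hctb]

end H592R3.MbU
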