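import Mathlib
import Pool.Agent.H592R6.Gap
import Pool.Agent.H592R7.First

/-!
The encoding of the constraint satisfaction problems as formulas of small width.
-/

set_option linter.unusedSectionVars false

namespace H592R3.MbU

open Finset DomAC0 H568R2 SmallDepth H592R3.Mb2 H592R3.Mb3

/-- The formulas. -/
theorem enc (Q D b m' n w M : ℕ) (hQ6 : 6 ≤ Q) (hD : 1 ≤ D) (hb : 1 ≤ b) (hm' : 2 ≤ m')
    (hn : 2 ≤ n)
    (hBw : (2 * Q ^ 2 + 14 + 1) * (2 * D * b) + 1 ≤ w)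
    (hQn : Q * m' * (2 * D * b + 1) ≤ n) (hM : n * 2 ^ w ≤ M)
    (s : Fin (Q * m') → Fin (2 * Q ^ 2 + 14 + 1) → Fin (Q * m')) :
    ∃ σ : ((Fin (Q * m') × (Fin (2 * Q ^ 2 + 14 + 1) → Fin (2 ^ (2 * D * b)))) → Bool) →
      (Fin M × Fin n × Bool → Bool),
      (∀ j, Junta 1 (fun x => σ x j)) ∧ (∀ X, WidthLe (σ X) w) ∧
      (∀ X, (∃ α, Models (σ X) α) ↔ Sat s X) := by
  classical
  have hdt : 1 ≤ D * b := Nat.one_le_iff_ne_zero.2 (by positivity)
  have hℓ2 : 2 ≤ 2 * D * b := by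
    have : 2 * D * b = 2 * (D * b) := by ring
    omega
  have hcard1 : Q * m' * (2 * D * b) ≤ n := by
    refine le_trans ?_ hQn
    exact Nat.mul_le_mul_left _ (by omega)
  obtain ⟨e⟩ : Nonempty ((Fin (Q * m') × Fin (2 * D * b)) ↪ Fin n) := by
    apply Function.Embedding.nonempty_of_card_le
    rw [Fintype.card_prod, Fintype.card_fin, Fintype.card_fin, Fintype.card_fin]
    exact hcard1
  obtain ⟨dec⟩ : Nonempty ((Fin (2 * D * b) → Bool) ≃ Fin (2 ^ (2 * D * b))) :=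
    ⟨Fintype.equivFinOfCardEq (by simp)⟩
  have hn0 : 0 < n := by omega
  have hB1 : 2 ≤ (2 * Q ^ 2 + 14 + 1) * (2 * D * b) := by
    calc 2 ≤ 2 * D * b := hℓ2
      _ = 1 * (2 * D * b) := (one_mul _).symm
      _ ≤ _ := Nat.mul_le_mul_right _ (by omega)
  have hcard2 : Q * m' * (2 ^ (2 * D * b)) ^ (2 * Q ^ 2 + 14 + 1) + n ≤ M := by
    refine le_trans ?_ hM
    have h1 : (2 ^ (2 * D * b)) ^ (2 * Q ^ 2 + 14 + 1) ≤ 2 ^ w := by
      rw [← pow_mul]
      apply Nat.pow_le_pow_right (by norm_num)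
      rw [mul_comm]; omega
    have h2 : 2 * (Q * m') ≤ n := by
      refine le_trans ?_ hcard1
      rw [mul_comm]
      exact Nat.mul_le_mul_left _ hℓ2
    have h3 : 2 ≤ 2 ^ w := by
      calc 2 = 2 ^ 1 := (pow_one 2).symm
        _ ≤ 2 ^ w := Nat.pow_le_pow_right (by norm_num) (by omega)
    have h4 : 2 * (Q * m' * (2 ^ (2 * D * b)) ^ (2 * Q ^ 2 + 14 + 1)) ≤ n * 2 ^ w := by
      calc 2 * (Q * m' * (2 ^ (2 * D * b)) ^ (2 * Q ^ 2 + 14 + 1)) =
          (2 * (Q * m')) * (2 ^ (2 * D * b)) ^ (2 * Q ^ 2 + 14 + 1) := by ring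
        _ ≤ n * 2 ^ w := Nat.mul_le_mul h2 h1
    have h5 : 2 * n ≤ n * 2 ^ w := by
      rw [mul_comm]; exact Nat.mul_le_mul_left _ h3
    omega
  obtain ⟨π, hπ⟩ : ∃ π : Fin M → (Fin (Q * m') × (Fin (2 * Q ^ 2 + 14 + 1) →
      Fin (2 ^ (2 * D * b)))) ⊕ Fin n, Function.Surjective π := by
    have : Nonempty ((Fin (Q * m') × (Fin (2 * Q ^ 2 + 14 + 1) →
      Fin (2 ^ (2 * D * b)))) ⊕ Fin n) := ⟨Sum.inr ⟨0, hn0⟩⟩
    obtain ⟨g⟩ : Nonempty (((Fin (Q * m') × (Fin (2 * Q ^ 2 + 14 + 1) →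
      Fin (2 ^ (2 * D * b)))) ⊕ Fin n) ↪ Fin M) := by
      apply Function.Embedding.nonempty_of_card_le
      rw [Fintype.card_sum, Fintype.card_prod, Fintype.card_fun, Fintype.card_fin,
        Fintype.card_fin, Fintype.card_fin, Fintype.card_fin, Fintype.card_fin]
      exact hcard2
    exact ⟨Function.invFun g, Function.invFun_surjective g.injective⟩
  exact ⟨fun X => cnfOf s e dec ⟨0, hn0⟩ π X, cnfOf_junta s e dec ⟨0, hn0⟩ π,
    fun X => cnfOf_width (by omega) (by omega) X, fun X => cnfOf_sat hπ X⟩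

lemma plant_sat {m B N : ℕ} (s : Fin m → Fin B → Fin m) (X : (Fin m × (Fin B → Fin N)) → Bool)
    (a : Fin m → Fin N) : Sat s (plant (vr s a) univ X) := by
  refine ⟨a, fun c => ?_⟩
  unfold plant
  simp only [Finset.mem_image, Finset.mem_univ, true_and, Bool.or_eq_true, decide_eq_true_eq]
  exact Or.inl ⟨c, rfl⟩

end H592R3.MbU
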