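import Mathlib
import Pool.Agent.H592R7.Enc

/-!
Satisfiability is hard on average for circuits of small depth.
-/

set_option linter.unusedSectionVars false

namespace H592R3.MbU

open Finset DomAC0 H568R2 SmallDepth H592R3.Mb2 H592R3.Mb3

open Classical in
/-- The advantage of a circuit. -/
lemma adv_le {Y J : Type} [Fintype Y] {m r N : ℕ} (hN : 1 ≤ N) (s : Fin m → Fin r → Fin m)
    (p : ℝ) (hp0 : 0 ≤ p) (hp1 : p ≤ 1)
    (σ : ((Fin m × (Fin r → Fin N)) → Bool) → (J → Bool)) (C : Circuit J) :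
    |(∑ X : (Fin m × (Fin r → Fin N)) → Bool, (∏ i, vp p (X i)) *
        (if C.eval (σ X) = true then (1 : ℝ) else 0)) -
      ∑ Xa : ((Fin m × (Fin r → Fin N)) → Bool) × (Fin m → Fin N),
        ((∏ i, vp p (Xa.1 i)) * (1 / (N : ℝ) ^ m)) *
        (if C.eval (σ (plant (vr s Xa.2) univ Xa.1)) = true then (1 : ℝ) else 0)| ≤
    (1 / (N : ℝ) ^ m) * Ex (vp p) (fun X => Mb2.cntS s σ C X) := by
  have hNp : (0 : ℝ) < (N : ℝ) ^ m := by
    have : (0 : ℝ) < N := by exact_mod_cast hN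
    positivity
  have hcard : ∑ _a : Fin m → Fin N, (1 / (N : ℝ) ^ m) = 1 := by
    rw [Finset.sum_const, Finset.card_univ, Fintype.card_fun, Fintype.card_fin, Fintype.card_fin,
      nsmul_eq_mul]
    push_cast
    field_simp
  have hμ : ∀ X : (Fin m × (Fin r → Fin N)) → Bool,
      0 ≤ ∏ i, vp p (X i) := fun X => Finset.prod_nonneg fun i _ => vp_nonneg hp0 hp1 _
  rw [Fintype.sum_prod_type]
  have e1 : (∑ X : (Fin m × (Fin r → Fin N)) → Bool, (∏ i, vp p (X i)) *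
        (if C.eval (σ X) = true then (1 : ℝ) else 0)) =
      ∑ X : (Fin m × (Fin r → Fin N)) → Bool, ∑ a : Fin m → Fin N,
        ((∏ i, vp p (X i)) * (1 / (N : ℝ) ^ m)) *
        (if C.eval (σ X) = true then (1 : ℝ) else 0) := by
    refine Finset.sum_congr rfl fun X _ => ?_
    rw [← Finset.sum_mul, ← Finset.mul_sum, hcard, mul_one]
  rw [e1, ← Finset.sum_sub_distrib]
  refine (Finset.abs_sum_le_sum_abs _ _).trans ?_
  unfold Ex
  rw [Finset.mul_sum]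
  refine Finset.sum_le_sum fun X _ => ?_
  rw [← Finset.sum_sub_distrib]
  refine (Finset.abs_sum_le_sum_abs _ _).trans ?_
  unfold Mb2.cntS
  rw [Finset.mul_sum, Finset.mul_sum]
  refine Finset.sum_le_sum fun a _ => ?_
  rw [← mul_sub, abs_mul, abs_of_nonneg (mul_nonneg (hμ X) (by positivity))]
  have h2 : |(if C.eval (σ X) = true then (1 : ℝ) else 0) -
      (if C.eval (σ (plant (vr s a) univ X)) = true then (1 : ℝ) else 0)| ≤
      (if C.eval (σ X) ≠ C.eval (σ (plant (vr s a) univ X)) then (1 : ℝ) else 0) := by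
    cases h3 : C.eval (σ X) <;> cases h4 : C.eval (σ (plant (vr s a) univ X)) <;> simp
  calc (∏ i, vp p (X i)) * (1 / (N : ℝ) ^ m) * _ ≤
      (∏ i, vp p (X i)) * (1 / (N : ℝ) ^ m) *
      (if C.eval (σ X) ≠ C.eval (σ (plant (vr s a) univ X)) then (1 : ℝ) else 0) :=
        mul_le_mul_of_nonneg_left h2 (mul_nonneg (hμ X) (by positivity))
    _ = _ := by ring

open Classical in
/-- The image of a distribution. -/
noncomputable def push {Λ Y : Type} [Fintype Λ] (μ : Λ → ℝ) (x : Λ → Y) (y : Y) : ℝ :=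
  ∑ l, if x l = y then μ l else 0

lemma push_sum {Λ Y : Type} [Fintype Λ] [Fintype Y] (μ : Λ → ℝ) (x : Λ → Y) (f : Y → ℝ) :
    ∑ y, push μ x y * f y = ∑ l, μ l * f (x l) := by
  classical
  unfold push
  simp_rw [Finset.sum_mul]
  rw [Finset.sum_comm]
  refine Finset.sum_congr rfl fun l _ => ?_
  rw [Finset.sum_eq_single (x l)]
  · rw [if_pos rfl]
  · intro y _ hy
    rw [if_neg (Ne.symm hy), zero_mul]
  · intro h
    exact absurd (Finset.mem_univ _) h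

lemma push_total {Λ Y : Type} [Fintype Λ] [Fintype Y] (μ : Λ → ℝ) (x : Λ → Y) :
    ∑ y, push μ x y = ∑ l, μ l := by
  have h := push_sum μ x (fun _ => 1)
  simpa using h

lemma push_nonneg {Λ Y : Type} [Fintype Λ] (μ : Λ → ℝ) (x : Λ → Y) (h : ∀ l, 0 ≤ μ l) (y : Y) :
    0 ≤ push μ x y := by
  classical
  unfold push
  refine Finset.sum_nonneg fun l _ => ?_
  split_ifs
  · exact h l
  · exact le_refl _

lemma push_ne {Λ Y : Type} [Fintype Λ] (μ : Λ → ℝ) (x : Λ → Y) (y : Y) (h : push μ x y ≠ 0) :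
    ∃ l, x l = y := by
  classical
  unfold push at h
  obtain ⟨l, _, hl⟩ := Finset.exists_ne_zero_of_sum_ne_zero h
  refine ⟨l, ?_⟩
  by_contra hne
  exact hl (if_neg hne)

open Classical in
/-- Satisfiability is hard on average. -/
theorem avg_sat (ε : ℝ) (hε : 0 < ε) : ∃ C : ℝ, 0 < C ∧
    ∀ n d w M : ℕ, 2 ≤ n → 1 ≤ d → C * (d * Real.log n) ≤ w → w ≤ n → n * 2 ^ w ≤ M →
    ∃ ν₀ ν₁ : ((Fin M × Fin n × Bool) → Bool) → ℝ,
      ((∀ u, 0 ≤ ν₀ u) ∧ ∑ u, ν₀ u = 1) ∧ ((∀ u, 0 ≤ ν₁ u) ∧ ∑ u, ν₁ u = 1) ∧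
      (∀ u, ν₀ u ≠ 0 → WidthLe u w) ∧ (∀ u, ν₁ u ≠ 0 → WidthLe u w ∧ ∃ α, Models u α) ∧
      (∑ u, ν₀ u * (if ∃ α, Models u α then 1 else 0)) ≤ (2 : ℝ) ^ (-((1 - ε) * n / 2)) ∧
      ∀ K : Circuit (Fin M × Fin n × Bool), K.depth ≤ d → (K.size : ℝ) ≤ 2 ^ ((1 - ε) * n) →
        |(∑ u, ν₀ u * (if K.eval u = true then 1 else 0)) -
          ∑ u, ν₁ u * (if K.eval u = true then 1 else 0)| ≤ (2 : ℝ) ^ (-((w : ℝ) / C)) := by
  obtain ⟨Q, hQ6, _, C', hC', hpar⟩ := params5 ε hε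
  obtain ⟨C, hC⟩ : ∃ C : ℝ, C = C' + 16 * (2 * Q ^ 2 + 14 + 1) := ⟨_, rfl⟩
  have hC0 : 0 < C := by rw [hC]; positivity
  refine ⟨C, hC0, ?_⟩
  intro n d w M hn hd hw hwn hM
  have hnR : (2 : ℝ) ≤ n := by exact_mod_cast hn
  have hlogn : 0 ≤ Real.log n := Real.log_nonneg (by linarith)
  obtain ⟨b, m', k, hb, hm', hA, hB1, hB2, hgk, hBw, hQn, hexp, hwb⟩ := hpar n d 0 w hn hd (by
    rw [Nat.cast_zero, add_zero]
    refine le_trans ?_ hw
    apply mul_le_mul_of_nonneg_right _ (by positivity)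
    rw [hC]
    have : (0 : ℝ) ≤ 16 * (2 * Q ^ 2 + 14 + 1) := by positivity
    linarith) hwn
  obtain ⟨s, hs, hsexp, hssm⟩ := scopes2 Q m' hQ6 (by omega)
  obtain ⟨σ, hσ, hσw, hσs⟩ := enc Q d b m' n w M hQ6 hd hb hm' hn hBw hQn hM s
  obtain ⟨p, hp⟩ : ∃ p : ℝ, p = (1 / ((2 : ℝ) ^ (d * b)) ^ 3) / 2 := ⟨_, rfl⟩
  have hp0 : 0 ≤ p := by rw [hp]; positivity
  have hp1 : p ≤ 1 := by
    have h1 : (1 : ℝ) ≤ ((2 : ℝ) ^ (d * b)) ^ 3 := one_le_pow₀ (one_le_pow₀ (by norm_num))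
    have h2 : 1 / ((2 : ℝ) ^ (d * b)) ^ 3 ≤ 1 := by
      rw [div_le_one (by positivity)]; exact h1
    rw [hp]
    linarith
  have hμ : ∀ X : (Fin (Q * m') × (Fin (2 * Q ^ 2 + 14 + 1) → Fin (2 ^ (2 * d * b)))) → Bool,
      0 ≤ ∏ i, vp p (X i) := fun X => Finset.prod_nonneg fun i _ => vp_nonneg hp0 hp1 _
  have hμ1 : ∑ X : (Fin (Q * m') × (Fin (2 * Q ^ 2 + 14 + 1) → Fin (2 ^ (2 * d * b)))) → Bool,
      ∏ i, vp p (X i) = 1 := by
    have := Ex_const (I := Fin (Q * m') × (Fin (2 * Q ^ 2 + 14 + 1) → Fin (2 ^ (2 * d * b))))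
      (vp_sum p) (1 : ℝ)
    unfold Ex at this
    simpa using this
  have hNp : (0 : ℝ) < (((2 ^ (2 * d * b) : ℕ) : ℝ)) ^ (Q * m') := by positivity
  refine ⟨push (fun X => ∏ i, vp p (X i)) σ,
    push (fun Xa : ((Fin (Q * m') × (Fin (2 * Q ^ 2 + 14 + 1) → Fin (2 ^ (2 * d * b)))) → Bool) ×
      (Fin (Q * m') → Fin (2 ^ (2 * d * b))) =>
      (∏ i, vp p (Xa.1 i)) * (1 / (((2 ^ (2 * d * b) : ℕ) : ℝ)) ^ (Q * m')))
      (fun Xa => σ (plant (vr s Xa.2) univ Xa.1)),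
    ⟨push_nonneg _ _ hμ, by rw [push_total, hμ1]⟩,
    ⟨push_nonneg _ _ (fun Xa => mul_nonneg (hμ _) (by positivity)), ?_⟩, ?_, ?_, ?_, ?_⟩
  · rw [push_total, Fintype.sum_prod_type]
    dsimp only
    simp_rw [Finset.sum_const, Finset.card_univ, Fintype.card_fun, Fintype.card_fin, nsmul_eq_mul]
    refine Eq.trans ?_ hμ1
    refine Finset.sum_congr rfl fun X _ => ?_
    push_cast
    field_simp
  · intro u hu
    obtain ⟨X, rfl⟩ := push_ne _ _ _ hu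
    exact hσw X
  · intro u hu
    obtain ⟨Xa, rfl⟩ := push_ne _ _ _ hu
    exact ⟨hσw _, (hσs _).2 (plant_sat s _ _)⟩
  · rw [push_sum _ σ (fun u => if ∃ α, Models u α then (1 : ℝ) else 0)]
    have h1 := sat_prob (N := 2 ^ (2 * d * b)) s hp0 hp1
    have h2 := sat_arith Q d b m' n ε hexp
    rw [← hp] at h2
    refine le_trans (le_of_eq ?_) (h1.trans h2)
    unfold Ex
    refine Finset.sum_congr rfl fun X _ => ?_
    beta_reduce
    by_cases hX : Sat s X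
    · rw [if_pos hX, if_pos ((hσs X).2 hX)]
    · rw [if_neg hX, if_neg (fun h => hX ((hσs X).1 h))]
  · intro K hK1 hK2
    rw [push_sum _ σ (fun u => if K.eval u = true then (1 : ℝ) else 0),
      push_sum _ _ (fun u => if K.eval u = true then (1 : ℝ) else 0)]
    have hcon : K.size ≤ 2 ^ ((2 * Q - 12) * (d * b * m')) := by
      have h6 : (2 : ℝ) ^ ((1 - ε) * n) ≤
          2 ^ ((((2 * Q - 12) * (d * b * m') : ℕ)) : ℝ) :=
        Real.rpow_le_rpow_of_exponent_le (by norm_num) hexp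
      rw [Real.rpow_natCast] at h6
      exact_mod_cast hK2.trans h6
    have h1 := adv_le (Y := Bool) (N := 2 ^ (2 * d * b)) Nat.one_le_two_pow s p hp0 hp1 σ K
    have h2 := csp_first Q d m' b k (d * (E1 Q * m' + k)) hQ6 hd hm' rfl hA hB1 hB2 s hs hsexp
      hssm K hK1 (le_refl _) σ hσ hcon
    rw [← hp] at h2
    refine h1.trans ?_
    obtain ⟨E, hE⟩ : ∃ E : ℝ, E = Ex (vp p) (fun X => Mb2.cntS s σ K X) := ⟨_, rfl⟩
    rw [← hE] at h2 ⊢
    have h3 : (1 / (((2 ^ (2 * d * b) : ℕ) : ℝ)) ^ (Q * m')) * E ≤ 3 / 2 ^ (d * b) := by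
      calc (1 / (((2 ^ (2 * d * b) : ℕ) : ℝ)) ^ (Q * m')) * E
          ≤ (1 / (((2 ^ (2 * d * b) : ℕ) : ℝ)) ^ (Q * m')) *
            (3 * (((2 : ℝ) ^ (2 * d * b)) ^ (Q * m') / 2 ^ (d * b))) :=
            mul_le_mul_of_nonneg_left h2 (by positivity)
        _ = 3 / 2 ^ (d * b) := by
            push_cast
            field_simp
    refine h3.trans ?_
    have h4 : (4 : ℝ) ≤ 2 ^ ((d * b : ℕ) / 2 : ℝ) := by
      have h5 : (2 : ℝ) ≤ (d * b : ℕ) / 2 := by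
        rw [le_div_iff₀ (by norm_num)]
        have : 4 ≤ d * b := by omega
        have h6 : ((4 : ℕ) : ℝ) ≤ ((d * b : ℕ) : ℝ) := by exact_mod_cast this
        push_cast at h6 ⊢
        linarith
      calc (4 : ℝ) = 2 ^ (2 : ℝ) := by norm_num
        _ ≤ 2 ^ ((d * b : ℕ) / 2 : ℝ) := Real.rpow_le_rpow_of_exponent_le (by norm_num) h5
    have h5 : (2 : ℝ) ^ (d * b) = 2 ^ ((d * b : ℕ) / 2 : ℝ) * 2 ^ ((d * b : ℕ) / 2 : ℝ) := by
      rw [← Real.rpow_add (by norm_num), add_halves, Real.rpow_natCast]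
    have h6 : (2 : ℝ) ^ (-((w : ℝ) / C)) = 1 / 2 ^ ((w : ℝ) / C) := by
      rw [Real.rpow_neg (by norm_num), one_div]
    have h7 : (2 : ℝ) ^ ((w : ℝ) / C) ≤ 2 ^ ((d * b : ℕ) / 2 : ℝ) := by
      apply Real.rpow_le_rpow_of_exponent_le (by norm_num)
      rw [div_le_div_iff₀ hC0 (by norm_num)]
      have h8 : (w : ℝ) ≤ 8 * (2 * Q ^ 2 + 14 + 1) * (d * b) := by exact_mod_cast hwb
      have h9 : 16 * (2 * (Q : ℝ) ^ 2 + 14 + 1) * (d * b) ≤ C * (d * b) := by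
        apply mul_le_mul_of_nonneg_right _ (by positivity)
        rw [hC]; linarith
      push_cast
      linarith
    rw [h6, h5, div_le_div_iff₀ (by positivity) (by positivity)]
    have h8 : (0 : ℝ) < 2 ^ ((d * b : ℕ) / 2 : ℝ) := by positivity
    have h9 : (0 : ℝ) < 2 ^ ((w : ℝ) / C) := by positivity
    nlinarith

end H592R3.MbU
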